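import Pool.Agent.Lib.H88C.G6

/-!
# MP_a8e959_al: p-solvable groups with an abelian Sylow p-subgroup, all picky elements

Let `p` be a prime, `G` a finite `p`-solvable group with an abelian Sylow `p`-subgroup `P`, and `x ∈ P` picky. Then Q1 holds
for `x`, and the sign in (2) can be chosen to depend only on the character.
-/

namespace Pool.Agent.Results.MP_a8e959_al.PSolvableAllPicky

open Pool.Agent.Lib.H90Q

/-- Q1 (all three conditions, and one sign for each character) for every finite `p`-solvable group `G` with an abelian Sylow
`p`-subgroup `P`, every prime `p` and every picky `x ∈ P`. -/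
theorem result {G : Type*} [Group G] [Fintype G] {p : ℕ} (hp : p.Prime) (hs : PSolvable p G) (P : Sylow p G)
    (hP : ∀ a ∈ P, ∀ b ∈ P, a * b = b * a) {x : G} (hx : Picky p x) (hxP : x ∈ P)
    {S : Set G} (hS : S ⊆ SecSet p x) : Q1Sharp p x S :=
  Pool.Agent.Lib.H88C.q1_full hp hs P hP hx hxP hS

end Pool.Agent.Results.MP_a8e959_al.PSolvableAllPicky
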