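import Pool.Agent.Lib.H46O.Z3

/-!
# MP_a8e959_al: Q1 holds when the Sylow 2-subgroups have order dividing 4

`Q1Sharp 2 x S` (`Pool/Agent/Lib/H90Q/Concl.lean`) is the conclusion of Q1 for the prime 2, the element `x` and the
set of representatives `S` for `S_2(x)`, with one sign for every character.
-/

open Pool.Agent.Lib.H90Q

namespace Pool.Agent.Results.MP_a8e959_al.SylowOrderFour

theorem result {G : Type*} [Group G] [Finite G] (P : Sylow 2 G) (h4 : Nat.card P ∣ 4)
    (x : G) (hx : x ∈ P) (hp : Picky 2 x) (S : Set G) (hS : IsReps 2 x S) :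
    Q1Sharp 2 x S := by
  have := Fintype.ofFinite G
  exact Pool.Agent.Lib.H46O.q1_sylow_le_four P h4 hx hp hS

end Pool.Agent.Results.MP_a8e959_al.SylowOrderFour
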